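import Mathlib

/-!
Automatic continuity of surjective homomorphisms onto the algebra of all bounded operators of a
Banach space (Johnson's theorem).
-/

open Filter
open scoped Topology

namespace Pool.Agent.H28.SH

variable {𝕜 : Type*} [RCLike 𝕜] {A : Type*} [NormedRing A] [NormedAlgebra 𝕜 A] [CompleteSpace A]
  {Y : Type*} [NormedAddCommGroup Y] [NormedSpace 𝕜 Y]

/-- rank one operators -/
noncomputable def rk (f : Y →L[𝕜] 𝕜) (y : Y) : Y →L[𝕜] Y := f.smulRight y

@[simp] lemma rk_apply (f : Y →L[𝕜] 𝕜) (y z : Y) : rk f y z = f z • y := rfl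

omit [CompleteSpace A] in
lemma map_one_of_surjective {Φ : A →ₙₐ[𝕜] (Y →L[𝕜] Y)} (hΦ : Function.Surjective Φ) :
    Φ 1 = 1 := by
  obtain ⟨a, ha⟩ := hΦ 1
  calc Φ 1 = Φ 1 * 1 := (mul_one _).symm
    _ = Φ 1 * Φ a := by rw [ha]
    _ = Φ (1 * a) := (map_mul Φ 1 a).symm
    _ = 1 := by rw [one_mul, ha]

/-- an eigenvalue of the image is at most the norm -/
lemma eigen_le {Φ : A →ₙₐ[𝕜] (Y →L[𝕜] Y)} (hΦ : Function.Surjective Φ) {c : A} {l : 𝕜} {y : Y}
    (hy : y ≠ 0) (h : Φ c y = l • y) : ‖l‖ ≤ ‖c‖ := by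
  by_contra hcon
  push Not at hcon
  have hl : l ≠ 0 := by
    rintro rfl
    rw [norm_zero] at hcon
    exact absurd (norm_nonneg c) (not_le.2 hcon)
  have h1 : ‖l⁻¹ • c‖ < 1 := by
    rw [norm_smul, norm_inv, inv_mul_lt_iff₀ (norm_pos_iff.2 hl), mul_one]
    exact hcon
  obtain ⟨u, hu⟩ := isUnit_one_sub_of_norm_lt_one h1
  have h2 : Φ (1 - l⁻¹ • c) y = 0 := by
    rw [map_sub, map_one_of_surjective hΦ, map_smul]
    show y - l⁻¹ • Φ c y = 0
    rw [h, smul_smul, inv_mul_cancel₀ hl, one_smul, sub_self]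
  have h3 : Φ ((↑u⁻¹ : A) * (1 - l⁻¹ • c)) y = y := by
    rw [← hu, Units.inv_mul, map_one_of_surjective hΦ]
    rfl
  rw [map_mul] at h3
  have h4 : Φ (↑u⁻¹ : A) (Φ (1 - l⁻¹ • c) y) = y := h3
  rw [h2, map_zero] at h4
  exact hy h4.symm

variable [CompleteSpace Y]

/-- Johnson's theorem: a surjective homomorphism onto `B(Y)` is continuous. -/
theorem continuous_of_surjective {Φ : A →ₙₐ[𝕜] (Y →L[𝕜] Y)} (hΦ : Function.Surjective Φ) :
    Continuous Φ := by
  -- pointwise continuity
  have hpt : ∀ y : Y, Continuous fun a => Φ a y := by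
    intro y
    rcases eq_or_ne y 0 with rfl | hy
    · simp only [map_zero]; exact continuous_const
    let g : A →ₗ[𝕜] Y :=
      { toFun := fun a => Φ a y
        map_add' := fun a b => by rw [map_add]; rfl
        map_smul' := fun c a => by rw [map_smul]; rfl }
    have hg : Continuous g := by
      refine LinearMap.continuous_of_seq_closed_graph g fun u x z hu hgu => ?_
      by_contra hne
      have hne' : z - g x ≠ 0 := sub_ne_zero.2 hne
      obtain ⟨f, -, hf⟩ := exists_dual_vector 𝕜 (z - g x) (norm_ne_zero_iff.2 hne')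
      obtain ⟨b, hb⟩ := hΦ (rk f y)
      have h1 : Tendsto (fun n => f (g (u n) - g x)) atTop (𝓝 (f (z - g x))) :=
        (f.continuous.tendsto _).comp (hgu.sub_const _)
      have h2 : ∀ n, ‖f (g (u n) - g x)‖ ≤ ‖b‖ * ‖u n - x‖ := by
        intro n
        refine (eigen_le hΦ (c := b * (u n - x)) hy ?_).trans (norm_mul_le _ _)
        rw [map_mul, hb]
        show f (Φ (u n - x) y) • y = f (g (u n) - g x) • y
        rw [map_sub]
        rfl
      have h3 : Tendsto (fun n => ‖b‖ * ‖u n - x‖) atTop (𝓝 0) := by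
        have := (tendsto_iff_norm_sub_tendsto_zero.1 hu).const_mul ‖b‖
        rwa [mul_zero] at this
      have h4 : Tendsto (fun n => f (g (u n) - g x)) atTop (𝓝 0) :=
        squeeze_zero_norm h2 h3
      have h5 := tendsto_nhds_unique h1 h4
      rw [hf] at h5
      exact hne' (norm_eq_zero.1 (RCLike.ofReal_eq_zero.1 h5))
    exact hg
  let G : A →ₗ[𝕜] (Y →L[𝕜] Y) :=
    { toFun := Φ
      map_add' := map_add Φ
      map_smul' := map_smul Φ }
  have hG : Continuous G := by
    refine LinearMap.continuous_of_seq_closed_graph G fun u x b hu hgu => ?_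
    ext y
    have h1 : Tendsto (fun n => Φ (u n) y) atTop (𝓝 (Φ x y)) := ((hpt y).tendsto x).comp hu
    have h2 : Tendsto (fun n => Φ (u n) y) atTop (𝓝 (b y)) :=
      ((ContinuousLinearMap.apply 𝕜 Y y).continuous.tendsto b).comp hgu
    exact tendsto_nhds_unique h2 h1
  exact hG

end Pool.Agent.H28.SH
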