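import Mathlib

/-!
An independent family of subsets of `ℕ` indexed by the subsets of `ℕ`.
-/

open Filter

namespace Pool.Agent.H28.SH

/-- a finite set that separates the members of a finite family of sets -/
lemma exists_separating (R : Finset (Set ℕ)) :
    ∃ F : Finset ℕ, ∀ r ∈ R, ∀ r' ∈ R, (∀ n ∈ F, n ∈ r ↔ n ∈ r') → r = r' := by
  classical
  let w : Set ℕ × Set ℕ → ℕ := fun q => if h : ∃ n, ¬(n ∈ q.1 ↔ n ∈ q.2) then h.choose else 0
  refine ⟨(R ×ˢ R).image w, fun r hr r' hr' h => ?_⟩
  by_contra hne
  have hex : ∃ n, ¬(n ∈ r ↔ n ∈ r') := by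
    by_contra hcon
    push Not at hcon
    exact hne (Set.ext hcon)
  have hw : w (r, r') = hex.choose := dif_pos hex
  have h1 := h (w (r, r')) (Finset.mem_image_of_mem w (Finset.mk_mem_product hr hr'))
  rw [hw] at h1
  exact hex.choose_spec h1

/-- the countable index set -/
abbrev Idx : Type := Finset ℕ × Finset (Finset ℕ)

open Classical in
/-- the independent family on the index set -/
def indA (r : Set ℕ) : Set Idx := {d | d.1.filter (fun n => n ∈ r) ∈ d.2}

theorem exists_ultrafilter_idx (S : Set (Set ℕ)) :
    ∃ U : Ultrafilter Idx, ∀ r, indA r ∈ U ↔ r ∈ S := by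
  classical
  choose F hF using exists_separating
  let d : Finset (Set ℕ) → Idx := fun R =>
    (F R, (R.filter (fun r => r ∈ S)).image fun r => (F R).filter (fun n => n ∈ r))
  have hd : ∀ r, ∀ R : Finset (Set ℕ), r ∈ R → (d R ∈ indA r ↔ r ∈ S) := by
    intro r R hr
    constructor
    · intro h
      have h1 : (F R).filter (fun n => n ∈ r) ∈
          (R.filter (fun r => r ∈ S)).image fun r => (F R).filter (fun n => n ∈ r) := h
      rw [Finset.mem_image] at h1
      obtain ⟨r', hr', he⟩ := h1
      rw [Finset.mem_filter] at hr'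
      have : r = r' := by
        refine hF R r hr r' hr'.1 fun n hn => ?_
        have h2 := Finset.ext_iff.1 he n
        simp only [Finset.mem_filter, hn, true_and] at h2
        exact h2.symm
      rw [this]; exact hr'.2
    · intro h
      show (F R).filter (fun n => n ∈ r) ∈
          (R.filter (fun r => r ∈ S)).image fun r => (F R).filter (fun n => n ∈ r)
      exact Finset.mem_image_of_mem _ (Finset.mem_filter.2 ⟨hr, h⟩)
  let U : Ultrafilter Idx := Ultrafilter.of (map d atTop)
  have hU : (U : Filter Idx) ≤ map d atTop := Ultrafilter.of_le _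
  refine ⟨U, fun r => ?_⟩
  have hev : ∀ᶠ R : Finset (Set ℕ) in atTop, r ∈ R := by
    filter_upwards [eventually_ge_atTop {r}] with R hR
    exact hR (Finset.mem_singleton_self r)
  constructor
  · intro h
    by_contra hr
    have h1 : (indA r)ᶜ ∈ U := by
      apply hU
      rw [mem_map]
      filter_upwards [hev] with R hR
      intro h2
      exact hr ((hd r R hR).1 h2)
    exact (Ultrafilter.compl_mem_iff_notMem.1 h1) h
  · intro hr
    apply hU
    rw [mem_map]
    filter_upwards [hev] with R hR
    exact (hd r R hR).2 hr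

/-- There are subsets `A r` of `ℕ` such that every set of indices is traced by an ultrafilter. -/
theorem exists_independent : ∃ A : Set ℕ → Set ℕ, ∀ S : Set (Set ℕ),
    ∃ U : Ultrafilter ℕ, ∀ r, A r ∈ U ↔ r ∈ S := by
  refine ⟨fun r => Encodable.encode '' indA r, fun S => ?_⟩
  obtain ⟨U, hU⟩ := exists_ultrafilter_idx S
  refine ⟨U.map Encodable.encode, fun r => ?_⟩
  rw [← hU r, Ultrafilter.mem_map, Set.preimage_image_eq _ Encodable.encode_injective]

end Pool.Agent.H28.SH
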