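import Mathlib

/-!
Rosenthal's lemma on sequences of functionals on the space of bounded sequences.
-/

open Filter
open scoped BoundedContinuousFunction

namespace Pool.Agent.H28.SH

variable {𝕜 : Type*} [RCLike 𝕜]

/-- the variation of `μ` on `A` is at most `t` -/
def Vle (μ : (ℕ →ᵇ 𝕜) →L[𝕜] 𝕜) (A : Set ℕ) (t : ℝ) : Prop :=
  ∀ c : ℕ →ᵇ 𝕜, (∀ n, ‖c n‖ ≤ 1) → (∀ n, n ∉ A → c n = 0) → ‖μ c‖ ≤ t

lemma exists_unimodular (z : 𝕜) : ∃ u : 𝕜, ‖u‖ = 1 ∧ u * z = (‖z‖ : 𝕜) := by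
  rcases eq_or_ne z 0 with rfl | hz
  · exact ⟨1, by simp, by simp⟩
  · have hz' : (‖z‖ : 𝕜) ≠ 0 := by
      rw [RCLike.ofReal_ne_zero]; exact norm_ne_zero_iff.2 hz
    refine ⟨(‖z‖ : 𝕜) / z, ?_, div_mul_cancel₀ _ hz⟩
    rw [norm_div, RCLike.norm_ofReal, abs_norm, div_self (norm_ne_zero_iff.2 hz)]

lemma Vle.superadd {μ : (ℕ →ᵇ 𝕜) →L[𝕜] 𝕜} {A B C : Set ℕ} {s t : ℝ} (hC : Vle μ C t)
    (hB : ¬ Vle μ B s) (hA : A ⊆ C) (hBC : B ⊆ C) (hAB : Disjoint A B) : Vle μ A (t - s) := by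
  intro c hc1 hc2
  unfold Vle at hB
  push Not at hB
  obtain ⟨d, hd1, hd2, hd3⟩ := hB
  obtain ⟨u, hu1, hu2⟩ := exists_unimodular (μ c)
  obtain ⟨v, hv1, hv2⟩ := exists_unimodular (μ d)
  have h1 : ‖μ (u • c + v • d)‖ ≤ t := by
    refine hC _ (fun n => ?_) fun n hn => ?_
    · have e : (u • c + v • d) n = u * c n + v * d n := rfl
      rw [e]
      by_cases hn : n ∈ A
      · have : n ∉ B := fun h => Set.disjoint_left.1 hAB hn h
        rw [hd2 n this, mul_zero, add_zero, norm_mul, hu1, one_mul]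
        exact hc1 n
      · rw [hc2 n hn, mul_zero, zero_add, norm_mul, hv1, one_mul]
        exact hd1 n
    · have e : (u • c + v • d) n = u * c n + v * d n := rfl
      rw [e, hc2 n fun h => hn (hA h), hd2 n fun h => hn (hBC h)]
      simp
  have h2 : μ (u • c + v • d) = ((‖μ c‖ + ‖μ d‖ : ℝ) : 𝕜) := by
    rw [map_add, map_smul, map_smul, smul_eq_mul, smul_eq_mul, hu2, hv2, RCLike.ofReal_add]
  rw [h2, RCLike.norm_ofReal, abs_of_nonneg (by positivity)] at h1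
  linarith

/-- Rosenthal's lemma -/
theorem rosenthal (μ : ℕ → (ℕ →ᵇ 𝕜) →L[𝕜] 𝕜) {K : ℝ} (hK : ∀ n, Vle (μ n) Set.univ K) {ε : ℝ}
    (hε : 0 < ε) {N₀ : Set ℕ} (hN₀ : N₀.Infinite) :
    ∃ M ⊆ N₀, M.Infinite ∧ ∀ n ∈ M, Vle (μ n) (M \ {n}) ε := by
  by_contra hcon
  push Not at hcon
  have claim : ∀ k : ℕ, ∀ N ⊆ N₀, N.Infinite → ∃ N' ⊆ N, N'.Infinite ∧
      ∀ n ∈ N', Vle (μ n) N' (K - k * ε) := by
    intro k
    induction k with
    | zero =>
      intro N _ hN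
      refine ⟨N, Set.Subset.rfl, hN, fun n _ c hc1 hc2 => ?_⟩
      rw [Nat.cast_zero, zero_mul, sub_zero]
      exact hK n c hc1 fun m hm => absurd (Set.mem_univ m) hm
    | succ k ih =>
      intro N hN0 hN
      obtain ⟨N', hN'N, hN'inf, hN'⟩ := ih N hN0 hN
      let g : ℕ ↪ N' := hN'inf.natEmbedding N'
      let P : ℕ → ℕ → ℕ := fun p q => (g (Nat.pair p q) : ℕ)
      have hPinj : ∀ p q p' q', P p q = P p' q' → p = p' ∧ q = q' := by
        intro p q p' q' h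
        have h1 := g.injective (Subtype.ext h)
        exact Nat.pair_eq_pair.1 h1
      let Mp : ℕ → Set ℕ := fun p => Set.range (P p)
      have hMpN' : ∀ p, Mp p ⊆ N' := by
        rintro p _ ⟨q, rfl⟩
        exact (g (Nat.pair p q)).2
      have hMpinf : ∀ p, (Mp p).Infinite := fun p =>
        Set.infinite_range_of_injective fun q q' h => (hPinj p q p q' h).2
      choose n hn1 hn2 using fun p => hcon (Mp p) ((hMpN' p).trans (hN'N.trans hN0)) (hMpinf p)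
      have hninj : Function.Injective n := by
        intro p p' h
        obtain ⟨q, hq⟩ := hn1 p
        obtain ⟨q', hq'⟩ := hn1 p'
        exact (hPinj p q p' q' (by rw [hq, hq', h])).1
      refine ⟨Set.range n, ?_, Set.infinite_range_of_injective hninj, ?_⟩
      · rintro _ ⟨p, rfl⟩
        exact hN'N (hMpN' p (hn1 p))
      · rintro _ ⟨p, rfl⟩
        have h1 := (hN' (n p) (hMpN' p (hn1 p))).superadd (A := Set.range n)
          (B := Mp p \ {n p}) (s := ε) (hn2 p) ?_ ?_ ?_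
        · have e : K - ((k + 1 : ℕ) : ℝ) * ε = K - k * ε - ε := by push_cast; ring
          rw [e]; exact h1
        · rintro _ ⟨p', rfl⟩
          exact hMpN' p' (hn1 p')
        · exact fun x hx => hMpN' p hx.1
        · rw [Set.disjoint_left]
          rintro _ ⟨p', rfl⟩ ⟨hx1, hx2⟩
          obtain ⟨q, hq⟩ := hx1
          obtain ⟨q', hq'⟩ := hn1 p'
          have : p = p' := (hPinj p q p' q' (by rw [hq, hq'])).1
          subst this
          exact hx2 rfl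
  obtain ⟨k, hk⟩ := exists_nat_gt (K / ε)
  obtain ⟨N', -, hN'inf, hN'⟩ := claim k N₀ Set.Subset.rfl hN₀
  obtain ⟨n, hn⟩ := hN'inf.nonempty
  have h1 := hN' n hn 0 (by simp) (by simp)
  rw [map_zero, norm_zero] at h1
  rw [div_lt_iff₀ hε] at hk
  linarith

end Pool.Agent.H28.SH
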