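import Mathlib
import Pool.Agent.H28.SH.Indep
import Pool.Agent.H28.SH.Rosenthal
import Pool.Agent.H28.SH.Cont

/-!
The key cardinality argument and the abstract theorem.
-/

open Filter TopologicalSpace
open scoped Topology BoundedContinuousFunction

namespace Pool.Agent.H28.SH

variable {𝕜 : Type*} [RCLike 𝕜]

open Classical in
/-- the characteristic function of a set of natural numbers -/
noncomputable def ind (A : Set ℕ) : ℕ →ᵇ 𝕜 :=
  BoundedContinuousFunction.ofNormedAddCommGroupDiscrete (fun n => if n ∈ A then 1 else 0) 1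
    fun n => by split_ifs <;> simp

lemma ind_of_mem {A : Set ℕ} {n : ℕ} (h : n ∈ A) : (ind A : ℕ →ᵇ 𝕜) n = 1 := if_pos h

lemma ind_of_notMem {A : Set ℕ} {n : ℕ} (h : n ∉ A) : (ind A : ℕ →ᵇ 𝕜) n = 0 := if_neg h

lemma norm_ind_apply_le (A : Set ℕ) (n : ℕ) : ‖(ind A : ℕ →ᵇ 𝕜) n‖ ≤ 1 := by
  by_cases h : n ∈ A
  · rw [ind_of_mem h, norm_one]
  · rw [ind_of_notMem h, norm_zero]; exact zero_le_one

section functionals

variable {Y : Type*} [NormedAddCommGroup Y] [NormedSpace 𝕜 Y]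

/-- limit of a bounded sequence of functionals along an ultrafilter -/
lemma exists_limit (φ : ℕ → Y →L[𝕜] 𝕜) (hφ : ∀ n, ‖φ n‖ ≤ 1) (U : Ultrafilter ℕ) :
    ∃ f : Y →L[𝕜] 𝕜, ∀ y, Tendsto (fun n => φ n y) U (𝓝 (f y)) := by
  have hc := WeakDual.isCompact_closedBall (𝕜 := 𝕜) (E := Y) 0 1
  let ψ : ℕ → WeakDual 𝕜 Y := fun n => StrongDual.toWeakDual (φ n)
  obtain ⟨x, -, hx⟩ := hc.ultrafilter_le_nhds (U.map ψ) (by
    rw [le_principal_iff]
    refine mem_map.2 (Eventually.of_forall fun n => ?_)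
    show WeakDual.toStrongDual (ψ n) ∈ Metric.closedBall 0 1
    rw [mem_closedBall_zero_iff]
    exact hφ n)
  refine ⟨WeakDual.toStrongDual x, fun y => ?_⟩
  exact ((WeakDual.eval_continuous (𝕜 := 𝕜) y).tendsto x).comp hx

/-- A bounded operator on the bounded sequences which does not tend to zero on the unit vectors
yields many functionals. -/
theorem many_functionals (R : (ℕ →ᵇ 𝕜) →L[𝕜] Y) {δ : ℝ} (hδ : 0 < δ)
    (hR : ∃ᶠ n in atTop, δ ≤ ‖R (ind {n})‖) :
    ∃ Ψ : Set (Set ℕ) → (Y →L[𝕜] 𝕜), Function.Injective Ψ := by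
  classical
  choose φ hφ1 hφ2 using fun n => exists_dual_vector'' 𝕜 (R (ind {n}))
  let μ : ℕ → (ℕ →ᵇ 𝕜) →L[𝕜] 𝕜 := fun n => (φ n).comp R
  have hK : ∀ n, Vle (μ n) Set.univ ‖R‖ := by
    intro n c hc1 _
    have hc : ‖c‖ ≤ 1 := (BoundedContinuousFunction.norm_le zero_le_one).2 hc1
    calc ‖φ n (R c)‖ ≤ ‖φ n‖ * ‖R c‖ := (φ n).le_opNorm _
      _ ≤ 1 * (‖R‖ * ‖c‖) := mul_le_mul (hφ1 n) (R.le_opNorm c) (norm_nonneg _) zero_le_one
      _ ≤ 1 * (‖R‖ * 1) := by gcongr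
      _ = ‖R‖ := by ring
  rw [Nat.frequently_atTop_iff_infinite] at hR
  obtain ⟨M, hMN, hMinf, hM⟩ := rosenthal μ hK (show 0 < δ / 3 by positivity) hR
  let g : ℕ ↪ M := hMinf.natEmbedding M
  let i : ℕ → ℕ := fun k => (g k : ℕ)
  have hi : Function.Injective i := fun k k' h => g.injective (Subtype.ext h)
  have hiM : ∀ k, i k ∈ M := fun k => (g k).2
  obtain ⟨A, hA⟩ := exists_independent
  choose U hU using hA
  choose Ψ hΨ using fun S => exists_limit (fun k => φ (i k)) (fun k => hφ1 (i k)) (U S)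
  refine ⟨Ψ, ?_⟩
  let c : Set ℕ → (ℕ →ᵇ 𝕜) := fun r => ind (i '' A r)
  have hbig : ∀ r k, k ∈ A r → 2 * δ / 3 ≤ ‖φ (i k) (R (c r))‖ := by
    intro r k hk
    have e : c r = ind {i k} + ind (i '' A r \ {i k}) := by
      ext m
      rw [BoundedContinuousFunction.add_apply]
      by_cases hm : m = i k
      · subst hm
        rw [ind_of_mem (A := {i k}) (Set.mem_singleton _),
          ind_of_notMem (A := i '' A r \ {i k}) (fun h => h.2 rfl), add_zero]
        exact ind_of_mem ⟨k, hk, rfl⟩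
      · rw [ind_of_notMem (A := {i k}) hm, zero_add]
        by_cases hm2 : m ∈ i '' A r
        · rw [ind_of_mem (A := i '' A r \ {i k}) ⟨hm2, hm⟩]
          exact ind_of_mem hm2
        · rw [ind_of_notMem (A := i '' A r \ {i k}) fun h => hm2 h.1]
          exact ind_of_notMem hm2
    have h1 : ‖φ (i k) (R (ind (i '' A r \ {i k})))‖ ≤ δ / 3 := by
      refine hM (i k) (hiM k) (ind (i '' A r \ {i k})) (norm_ind_apply_le _) fun n hn => ?_
      refine ind_of_notMem fun h => hn ⟨?_, h.2⟩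
      obtain ⟨k', -, rfl⟩ := h.1
      exact hiM k'
    have h2 : δ ≤ ‖φ (i k) (R (ind {i k}))‖ := by
      rw [hφ2 (i k), RCLike.norm_ofReal, abs_norm]
      exact hMN (hiM k)
    rw [e, map_add, map_add]
    have h3 := norm_sub_le (φ (i k) (R (ind {i k})) + φ (i k) (R (ind (i '' A r \ {i k}))))
      (φ (i k) (R (ind (i '' A r \ {i k}))))
    rw [add_sub_cancel_right] at h3
    linarith
  have hsmall : ∀ r k, k ∉ A r → ‖φ (i k) (R (c r))‖ ≤ δ / 3 := by
    intro r k hk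
    refine hM (i k) (hiM k) (c r) (norm_ind_apply_le _) fun n hn => ?_
    refine ind_of_notMem fun h => hn ?_
    obtain ⟨k', hk', rfl⟩ := h
    refine ⟨hiM k', fun h => ?_⟩
    have : k' = k := hi h
    exact hk (this ▸ hk')
  have hin : ∀ S r, r ∈ S → 2 * δ / 3 ≤ ‖Ψ S (R (c r))‖ := by
    intro S r hr
    refine ge_of_tendsto (hΨ S (R (c r))).norm ?_
    filter_upwards [(hU S r).2 hr] with k hk
    exact hbig r k hk
  have hout : ∀ S r, r ∉ S → ‖Ψ S (R (c r))‖ ≤ δ / 3 := by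
    intro S r hr
    refine le_of_tendsto (hΨ S (R (c r))).norm ?_
    have h1 : (A r)ᶜ ∈ U S := Ultrafilter.compl_mem_iff_notMem.2 fun h => hr ((hU S r).1 h)
    filter_upwards [h1] with k hk
    exact hsmall r k hk
  intro S S' hSS
  ext r
  constructor
  · intro hr
    by_contra hr'
    have h1 := hin S r hr
    have h2 := hout S' r hr'
    rw [hSS] at h1
    linarith
  · intro hr
    by_contra hr'
    have h1 := hin S' r hr
    have h2 := hout S r hr'
    rw [hSS] at h2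
    linarith

end functionals

/-- A separable space has few bounded operators. -/
theorem few_operators (X : Type*) [NormedAddCommGroup X] [NormedSpace 𝕜 X] [SeparableSpace X] :
    ∃ j : (X →L[𝕜] X) → Set ℕ, Function.Injective j := by
  let d := denseSeq X
  have hd : DenseRange d := denseRange_denseSeq X
  let j₀ : (X →L[𝕜] X) → Set (ℕ × ℕ × ℕ) := fun T =>
    {q | ‖T (d q.1) - d q.2.1‖ < 1 / ((q.2.2 : ℝ) + 1)}
  have hj₀ : Function.Injective j₀ := by
    intro T T' h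
    have h1 : ∀ a, T (d a) = T' (d a) := by
      intro a
      rw [← sub_eq_zero, ← norm_le_zero_iff]
      refine le_of_forall_pos_le_add fun ε hε => ?_
      obtain ⟨k, hk⟩ := exists_nat_one_div_lt (show 0 < ε / 2 by positivity)
      obtain ⟨b, hb⟩ := hd.exists_dist_lt (T (d a)) (show (0:ℝ) < 1 / ((k : ℝ) + 1) by positivity)
      rw [dist_eq_norm] at hb
      have h2 : (a, b, k) ∈ j₀ T := hb
      rw [h] at h2
      have h3 : ‖T' (d a) - d b‖ < 1 / ((k : ℝ) + 1) := h2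
      calc ‖T (d a) - T' (d a)‖ = ‖(T (d a) - d b) - (T' (d a) - d b)‖ := by
            rw [sub_sub_sub_cancel_right]
        _ ≤ ‖T (d a) - d b‖ + ‖T' (d a) - d b‖ := norm_sub_le _ _
        _ ≤ 0 + ε := by linarith
    exact ContinuousLinearMap.ext fun x =>
      congrFun (hd.equalizer T.continuous T'.continuous (funext h1)) x
  exact ⟨fun T => Encodable.encode '' j₀ T,
    (Set.image_injective.2 Encodable.encode_injective).comp hj₀⟩

variable {X : Type*} [NormedAddCommGroup X] [NormedSpace 𝕜 X] [CompleteSpace X]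
  {Y : Type*} [NormedAddCommGroup Y] [NormedSpace 𝕜 Y] [CompleteSpace Y]

/-- If `X` is separable, then the images of a disjoint sequence of bounded multipliers tend to
zero strongly. -/
theorem null_of_separable [SeparableSpace X] {Φ : (X →L[𝕜] X) →ₙₐ[𝕜] (Y →L[𝕜] Y)}
    (hΦ : Function.Surjective Φ) (E : (ℕ →ᵇ 𝕜) →L[𝕜] (X →L[𝕜] X)) (y : Y) :
    Tendsto (fun n => Φ (E (ind {n})) y) atTop (𝓝 0) := by
  by_contra hcon
  have h0 : ∃ δ > 0, ∃ᶠ n in atTop, δ ≤ ‖Φ (E (ind {n})) y‖ := by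
    by_contra h
    push Not at h
    apply hcon
    rw [tendsto_zero_iff_norm_tendsto_zero, Metric.tendsto_atTop]
    intro ε hε
    obtain ⟨N, hN⟩ := eventually_atTop.1 (h ε hε)
    refine ⟨N, fun n hn => ?_⟩
    rw [Real.dist_eq, sub_zero, abs_norm]
    exact hN n hn
  obtain ⟨δ, hδ, hfr⟩ := h0
  have hy : y ≠ 0 := by
    rintro rfl
    obtain ⟨n, hn⟩ := hfr.exists
    rw [map_zero, norm_zero] at hn
    linarith
  let R : (ℕ →ᵇ 𝕜) →L[𝕜] Y :=
    { toFun := fun c => Φ (E c) y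
      map_add' := fun c d => by rw [map_add, map_add]; rfl
      map_smul' := fun a c => by rw [map_smul, map_smul]; rfl
      cont := by
        have h1 : Continuous fun c => Φ (E c) := (continuous_of_surjective hΦ).comp E.continuous
        exact (ContinuousLinearMap.apply 𝕜 Y y).continuous.comp h1 }
  obtain ⟨Ψ, hΨ⟩ := many_functionals R hδ hfr
  obtain ⟨j, hj⟩ := few_operators (𝕜 := 𝕜) X
  let s : (Y →L[𝕜] Y) → (X →L[𝕜] X) := Function.surjInv hΦ
  have hs : Function.Injective s := Function.injective_surjInv hΦ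
  have hrk : Function.Injective fun f : Y →L[𝕜] 𝕜 => rk f y := by
    intro f g h
    ext z
    have h1 : f z • y = g z • y := congrArg (fun T : Y →L[𝕜] Y => T z) h
    exact smul_left_injective 𝕜 hy h1
  exact Function.cantor_injective (fun S => j (s (rk (Ψ S) y)))
    (hj.comp (hs.comp (hrk.comp hΨ)))

omit [CompleteSpace X] [CompleteSpace Y] in
/-- A homomorphism which is not injective kills the operators of rank one. -/
theorem rank_one_killed {Φ : (X →L[𝕜] X) →ₙₐ[𝕜] (Y →L[𝕜] Y)} (hinj : ¬ Function.Injective Φ)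
    (φ : X →L[𝕜] 𝕜) (x : X) : Φ (φ.smulRight x) = 0 := by
  have hker : ∃ T : X →L[𝕜] X, T ≠ 0 ∧ Φ T = 0 := by
    unfold Function.Injective at hinj
    push Not at hinj
    obtain ⟨a, b, hab, hne⟩ := hinj
    exact ⟨a - b, sub_ne_zero.2 hne, by rw [map_sub, hab, sub_self]⟩
  obtain ⟨T, hT0, hT⟩ := hker
  obtain ⟨f, hf⟩ : ∃ f, T f ≠ 0 := by
    by_contra hcon
    push Not at hcon
    exact hT0 (ContinuousLinearMap.ext hcon)
  obtain ⟨ψ, -, hψ⟩ := exists_dual_vector 𝕜 (T f) (norm_ne_zero_iff.2 hf)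
  have hs : ψ (T f) ≠ 0 := by
    rw [hψ, RCLike.ofReal_ne_zero]
    exact norm_ne_zero_iff.2 hf
  have h1 : φ.smulRight x = (ψ.smulRight ((ψ (T f))⁻¹ • x)) * T * (φ.smulRight f) := by
    ext1 g
    show φ g • x = ψ (T (φ g • f)) • ((ψ (T f))⁻¹ • x)
    rw [map_smul, map_smul, smul_eq_mul, smul_smul, mul_assoc, mul_inv_cancel₀ hs, mul_one]
  rw [h1, map_mul, map_mul, hT, mul_zero, zero_mul]

/-- The abstract theorem. -/
theorem shai_abstract [SeparableSpace X] {Φ : (X →L[𝕜] X) →ₙₐ[𝕜] (Y →L[𝕜] Y)}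
    (hΦ : Function.Surjective Φ) (E : (ℕ →ᵇ 𝕜) →L[𝕜] (X →L[𝕜] X)) (T : ℕ → X →L[𝕜] X) {C : ℝ}
    (hT : ∀ n, ‖T n‖ ≤ C) (hTE : ∀ n, T n * E (ind {n}) = T n) (W : X →L[𝕜] X)
    (F : ℕ → X →L[𝕜] X) (hTW : ∀ n, T n * W = 1 - F n) (hF : ∀ n, Φ (F n) = 0) (y : Y) :
    y = 0 := by
  let G : (X →L[𝕜] X) →L[𝕜] (Y →L[𝕜] Y) :=
    { toFun := Φ
      map_add' := map_add Φ
      map_smul' := map_smul Φ
      cont := continuous_of_surjective hΦ }
  have hC : 0 ≤ C := (norm_nonneg _).trans (hT 0)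
  have h1 : ∀ n, y = Φ (T n) (Φ (E (ind {n})) (Φ W y)) := by
    intro n
    have h2 : Φ (T n * E (ind {n}) * W) = 1 := by
      rw [hTE, hTW, map_sub, hF, sub_zero, map_one_of_surjective hΦ]
    rw [map_mul, map_mul] at h2
    have h3 := congrArg (fun S : Y →L[𝕜] Y => S y) h2
    exact h3.symm
  have h2 : ∀ n, ‖y‖ ≤ ‖G‖ * C * ‖Φ (E (ind {n})) (Φ W y)‖ := by
    intro n
    calc ‖y‖ = ‖Φ (T n) (Φ (E (ind {n})) (Φ W y))‖ := congrArg norm (h1 n)
      _ ≤ ‖Φ (T n)‖ * ‖Φ (E (ind {n})) (Φ W y)‖ := (Φ (T n)).le_opNorm _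
      _ ≤ ‖G‖ * C * ‖Φ (E (ind {n})) (Φ W y)‖ := by
          gcongr
          calc ‖Φ (T n)‖ = ‖G (T n)‖ := rfl
            _ ≤ ‖G‖ * ‖T n‖ := G.le_opNorm _
            _ ≤ ‖G‖ * C := by gcongr; exact hT n
  have h3 : Tendsto (fun n => ‖G‖ * C * ‖Φ (E (ind {n})) (Φ W y)‖) atTop (𝓝 0) := by
    have := (null_of_separable hΦ E (Φ W y)).norm.const_mul (‖G‖ * C)
    rwa [norm_zero, mul_zero] at this
  have h4 := ge_of_tendsto' h3 h2
  exact norm_le_zero_iff.1 h4

end Pool.Agent.H28.SH
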