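import Mathlib
import Pool.Agent.H28.SH.Key

/-!
The space `C[0,1]` satisfies the hypotheses of the abstract theorem.
-/

open Filter Finset
open scoped Topology BoundedContinuousFunction unitInterval

namespace Pool.Agent.H28.SH

variable {𝕜 : Type*} [RCLike 𝕜]

/-- the affine map of `[0,1]` onto `[2^{-n-1}, 2^{-n}]` -/
noncomputable def am (n : ℕ) : C(I, I) where
  toFun s := ⟨((s : ℝ) + 1) / 2 ^ (n + 1), by
    have h0 := s.2.1
    have h1 := s.2.2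
    refine ⟨by positivity, ?_⟩
    rw [div_le_one (by positivity)]
    have : (2:ℝ) ≤ 2 ^ (n + 1) := by
      have := pow_le_pow_right₀ (by norm_num : (1:ℝ) ≤ 2) (show 1 ≤ n + 1 by omega)
      simpa using this
    linarith⟩
  continuous_toFun := by fun_prop

lemma am_coe (n : ℕ) (s : I) : ((am n s : I) : ℝ) = ((s : ℝ) + 1) / 2 ^ (n + 1) := rfl

/-- a continuous left inverse -/
noncomputable def rm (n : ℕ) : C(I, I) where
  toFun t := Set.projIcc (0:ℝ) 1 zero_le_one (2 ^ (n + 1) * (t : ℝ) - 1)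
  continuous_toFun := by fun_prop

lemma rm_am (n : ℕ) (s : I) : rm n (am n s) = s := by
  show Set.projIcc (0:ℝ) 1 zero_le_one (2 ^ (n + 1) * ((am n s : I) : ℝ) - 1) = s
  have : (2:ℝ) ^ (n + 1) * ((am n s : I) : ℝ) - 1 = s := by
    rw [am_coe]; field_simp; ring
  rw [this, Set.projIcc_val]

lemma rm_eq_one {n : ℕ} {t : I} (h : 1 / 2 ^ n ≤ (t : ℝ)) : rm n t = 1 := by
  show Set.projIcc (0:ℝ) 1 zero_le_one (2 ^ (n + 1) * (t : ℝ) - 1) = 1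
  apply Set.projIcc_of_right_le
  rw [div_le_iff₀ (by positivity)] at h
  rw [pow_succ]; linarith

lemma rm_eq_zero {n : ℕ} {t : I} (h : (t : ℝ) ≤ 1 / 2 ^ (n + 1)) : rm n t = 0 := by
  show Set.projIcc (0:ℝ) 1 zero_le_one (2 ^ (n + 1) * (t : ℝ) - 1) = 0
  apply Set.projIcc_of_le_left
  rw [le_div_iff₀ (by positivity)] at h
  linarith

/-- at each point at most one of the maps `rm n` takes an interior value -/
lemma rm_disjoint {n m : ℕ} (hnm : n ≠ m) (t : I) :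
    (rm n t = 0 ∨ rm n t = 1) ∨ (rm m t = 0 ∨ rm m t = 1) := by
  have key : ∀ n m : ℕ, n < m → (rm n t = 0 ∨ rm n t = 1) ∨ (rm m t = 0 ∨ rm m t = 1) := by
    intro n m h
    rcases le_total (t : ℝ) (1 / 2 ^ (n + 1)) with h1 | h1
    · exact Or.inl (Or.inl (rm_eq_zero h1))
    · refine Or.inr (Or.inr (rm_eq_one (le_trans ?_ h1)))
      apply one_div_le_one_div_of_le (by positivity)
      exact pow_le_pow_right₀ (by norm_num) h
  rcases lt_or_gt_of_ne hnm with h | h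
  · exact key n m h
  · exact (key m n h).symm

lemma rm_am_ne {n m : ℕ} (hnm : n ≠ m) (s : I) : rm n (am m s) = 0 ∨ rm n (am m s) = 1 := by
  have hs0 := s.2.1
  have hs1 := s.2.2
  rcases lt_or_gt_of_ne hnm with h | h
  · left
    apply rm_eq_zero
    rw [am_coe, div_le_div_iff₀ (by positivity) (by positivity)]
    have h1 : (2:ℝ) ^ (n + 1) * 2 ≤ 2 ^ (m + 1) := by
      rw [← pow_succ]
      exact pow_le_pow_right₀ (by norm_num) (by omega)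
    nlinarith [pow_pos (show (0:ℝ) < 2 by norm_num) (n + 1)]
  · right
    apply rm_eq_one
    rw [am_coe, div_le_div_iff₀ (by positivity) (by positivity)]
    have h1 : (2:ℝ) ^ (m + 1) ≤ 2 ^ n := pow_le_pow_right₀ (by norm_num) (by omega)
    nlinarith [pow_pos (show (0:ℝ) < 2 by norm_num) n]

/-- composition with a continuous map -/
noncomputable def cr (a : C(I, I)) : C(I, 𝕜) →L[𝕜] C(I, 𝕜) :=
  LinearMap.mkContinuous
    { toFun := fun g => g.comp a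
      map_add' := fun _ _ => rfl
      map_smul' := fun _ _ => rfl } 1 fun g => by
        rw [one_mul]
        exact (ContinuousMap.norm_le _ (norm_nonneg g)).2 fun x => g.norm_coe_le_norm (a x)

@[simp] lemma cr_apply (a : C(I, I)) (g : C(I, 𝕜)) (s : I) : cr a g s = g (a s) := rfl

lemma norm_sum_glue_le (h : ℕ → C(I, 𝕜)) (h0 : ∀ n, h n 0 = 0) (h1 : ∀ n, h n 1 = 0)
    (S : Finset ℕ) {C : ℝ} (hC : 0 ≤ C) (hh : ∀ n ∈ S, ‖h n‖ ≤ C) :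
    ‖∑ n ∈ S, cr (rm n) (h n)‖ ≤ C := by
  classical
  refine (ContinuousMap.norm_le _ hC).2 fun x => ?_
  rw [ContinuousMap.sum_apply]
  simp only [cr_apply]
  by_cases hex : ∃ n ∈ S, h n (rm n x) ≠ 0
  · obtain ⟨n, hn, hne⟩ := hex
    rw [sum_eq_single_of_mem n hn]
    · exact ((h n).norm_coe_le_norm _).trans (hh n hn)
    · intro m _ hmn
      rcases rm_disjoint hmn x with hd | hd
      · rcases hd with hd | hd <;> rw [hd]
        · exact h0 m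
        · exact h1 m
      · exfalso
        apply hne
        rcases hd with hd | hd <;> rw [hd]
        · exact h0 n
        · exact h1 n
  · push Not at hex
    rw [sum_eq_zero hex, norm_zero]
    exact hC

lemma summable_glue (h : ℕ → C(I, 𝕜)) (h0 : ∀ n, h n 0 = 0) (h1 : ∀ n, h n 1 = 0)
    (hlim : Tendsto h atTop (𝓝 0)) : Summable fun n => cr (rm n) (h n) := by
  rw [summable_iff_vanishing_norm]
  intro ε hε
  obtain ⟨N, hN⟩ := Metric.tendsto_atTop.1 hlim (ε / 2) (by positivity)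
  refine ⟨range N, fun t ht => ?_⟩
  refine lt_of_le_of_lt (norm_sum_glue_le h h0 h1 t (C := ε / 2) (by positivity) fun n hn => ?_)
    (by linarith)
  have hnN : N ≤ n := by
    by_contra hcon
    push Not at hcon
    exact Finset.disjoint_left.1 ht hn (mem_range.2 hcon)
  have := hN n hnN
  rw [dist_zero_right] at this
  exact this.le

lemma norm_tsum_glue_le (h : ℕ → C(I, 𝕜)) (h0 : ∀ n, h n 0 = 0) (h1 : ∀ n, h n 1 = 0)
    (hlim : Tendsto h atTop (𝓝 0)) {C : ℝ} (hC : 0 ≤ C) (hh : ∀ n, ‖h n‖ ≤ C) :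
    ‖∑' n, cr (rm n) (h n)‖ ≤ C := by
  have h2 := (summable_glue h h0 h1 hlim).hasSum.norm
  exact le_of_tendsto' h2 fun S => norm_sum_glue_le h h0 h1 S hC fun n _ => hh n

/-- gluing of a strongly null sequence of operators -/
noncomputable def glueOp (S : ℕ → C(I, 𝕜) →L[𝕜] C(I, 𝕜)) (h0 : ∀ n f, S n f 0 = 0)
    (h1 : ∀ n f, S n f 1 = 0) (hlim : ∀ f, Tendsto (fun n => S n f) atTop (𝓝 0)) {C : ℝ}
    (hC : 0 ≤ C) (hS : ∀ n f, ‖S n f‖ ≤ C * ‖f‖) : C(I, 𝕜) →L[𝕜] C(I, 𝕜) :=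
  LinearMap.mkContinuous
    { toFun := fun f => ∑' n, cr (rm n) (S n f)
      map_add' := fun f g => by
        rw [← (summable_glue (fun n => S n f) (fun n => h0 n f) (fun n => h1 n f)
          (hlim f)).tsum_add (summable_glue (fun n => S n g) (fun n => h0 n g) (fun n => h1 n g)
          (hlim g))]
        simp only [map_add]
      map_smul' := fun c f => by
        rw [RingHom.id_apply, ← tsum_const_smul'' c]
        simp only [map_smul] } C fun f =>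
      norm_tsum_glue_le _ (fun n => h0 n f) (fun n => h1 n f) (hlim f) (by positivity) fun n =>
        hS n f

lemma glueOp_apply (S : ℕ → C(I, 𝕜) →L[𝕜] C(I, 𝕜)) (h0 : ∀ n f, S n f 0 = 0)
    (h1 : ∀ n f, S n f 1 = 0) (hlim : ∀ f, Tendsto (fun n => S n f) atTop (𝓝 0)) {C : ℝ}
    (hC : 0 ≤ C) (hS : ∀ n f, ‖S n f‖ ≤ C * ‖f‖) (f : C(I, 𝕜)) :
    glueOp S h0 h1 hlim hC hS f = ∑' n, cr (rm n) (S n f) := rfl

lemma norm_glueOp_le (S : ℕ → C(I, 𝕜) →L[𝕜] C(I, 𝕜)) (h0 : ∀ n f, S n f 0 = 0)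
    (h1 : ∀ n f, S n f 1 = 0) (hlim : ∀ f, Tendsto (fun n => S n f) atTop (𝓝 0)) {C : ℝ}
    (hC : 0 ≤ C) (hS : ∀ n f, ‖S n f‖ ≤ C * ‖f‖) : ‖glueOp S h0 h1 hlim hC hS‖ ≤ C := by
  refine ContinuousLinearMap.opNorm_le_bound _ hC fun f => ?_
  rw [glueOp_apply]
  exact norm_tsum_glue_le _ (fun n => h0 n f) (fun n => h1 n f) (hlim f) (by positivity) fun n =>
    hS n f

/-- the function `s` -/
noncomputable def u1 : C(I, 𝕜) := ⟨fun s => ((s : ℝ) : 𝕜), by fun_prop⟩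

/-- removal of the end point values -/
noncomputable def ZZ : C(I, 𝕜) →L[𝕜] C(I, 𝕜) :=
  1 - (ContinuousMap.evalCLM 𝕜 (0 : I)).smulRight (1 - u1) -
    (ContinuousMap.evalCLM 𝕜 (1 : I)).smulRight u1

lemma ZZ_apply (g : C(I, 𝕜)) (s : I) :
    ZZ g s = g s - g 0 * (1 - ((s : ℝ) : 𝕜)) - g 1 * ((s : ℝ) : 𝕜) := rfl

lemma ZZ_zero (g : C(I, 𝕜)) : ZZ g 0 = 0 := by rw [ZZ_apply]; simp

lemma ZZ_one (g : C(I, 𝕜)) : ZZ g 1 = 0 := by rw [ZZ_apply]; simp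

lemma ZZ_of_zero {g : C(I, 𝕜)} (h0 : g 0 = 0) (h1 : g 1 = 0) : ZZ g = g := by
  ext s
  rw [ZZ_apply, h0, h1]; ring

lemma ZZ_const (c : 𝕜) : ZZ (ContinuousMap.const I c) = 0 := by
  ext s
  rw [ZZ_apply]
  simp only [ContinuousMap.const_apply, ContinuousMap.zero_apply]
  ring

/-- restriction to the `n`-th interval -/
noncomputable def TT (n : ℕ) : C(I, 𝕜) →L[𝕜] C(I, 𝕜) := ZZ.comp (cr (am n))

lemma norm_cr_le (a : C(I, I)) : ‖(cr a : C(I, 𝕜) →L[𝕜] C(I, 𝕜))‖ ≤ 1 :=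
  LinearMap.mkContinuous_norm_le _ zero_le_one _

lemma norm_TT_le (n : ℕ) : ‖(TT n : C(I, 𝕜) →L[𝕜] C(I, 𝕜))‖ ≤ ‖(ZZ : C(I, 𝕜) →L[𝕜] C(I, 𝕜))‖ := by
  refine (ContinuousLinearMap.opNorm_comp_le _ _).trans ?_
  exact mul_le_of_le_one_right (norm_nonneg _) (norm_cr_le _)

lemma TT_zero (n : ℕ) (g : C(I, 𝕜)) : TT n g 0 = 0 := ZZ_zero _

lemma TT_one (n : ℕ) (g : C(I, 𝕜)) : TT n g 1 = 0 := ZZ_one _

lemma TT_tendsto (g : C(I, 𝕜)) : Tendsto (fun n => TT n g) atTop (𝓝 0) := by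
  have h1 : Tendsto (fun n => cr (am n) g) atTop (𝓝 (ContinuousMap.const I (g 0))) := by
    rw [Metric.tendsto_atTop]
    intro ε hε
    obtain ⟨δ, hδ, hgδ⟩ := Metric.continuousAt_iff.1 (g.continuous.continuousAt (x := 0)) (ε / 2)
      (by positivity)
    obtain ⟨N, hN⟩ := exists_pow_lt_of_lt_one hδ (by norm_num : (1 / 2 : ℝ) < 1)
    refine ⟨N, fun n hn => ?_⟩
    have h2 : dist (cr (am n) g) (ContinuousMap.const I (g 0)) ≤ ε / 2 := by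
      refine (ContinuousMap.dist_le (by positivity)).2 fun s => ?_
      refine (hgδ ?_).le
      rw [Subtype.dist_eq, Real.dist_eq]
      show |((am n s : I) : ℝ) - 0| < δ
      rw [sub_zero, abs_of_nonneg (am n s).2.1, am_coe]
      have hs := s.2.2
      refine lt_of_le_of_lt ?_ hN
      calc ((s : ℝ) + 1) / 2 ^ (n + 1) ≤ 2 / 2 ^ (n + 1) := by gcongr; linarith
        _ = (1 / 2) ^ n := by rw [pow_succ, one_div_pow]; field_simp
        _ ≤ (1 / 2) ^ N := pow_le_pow_of_le_one (by norm_num) (by norm_num) hn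
    linarith
  have h3 := ((ZZ : C(I, 𝕜) →L[𝕜] C(I, 𝕜)).continuous.tendsto _).comp h1
  rw [ZZ_const] at h3
  exact h3

lemma TT_glueOp (S : ℕ → C(I, 𝕜) →L[𝕜] C(I, 𝕜)) (h0 : ∀ n f, S n f 0 = 0)
    (h1 : ∀ n f, S n f 1 = 0) (hlim : ∀ f, Tendsto (fun n => S n f) atTop (𝓝 0)) {C : ℝ}
    (hC : 0 ≤ C) (hS : ∀ n f, ‖S n f‖ ≤ C * ‖f‖) (m : ℕ) :
    TT m * glueOp S h0 h1 hlim hC hS = S m := by
  ext1 f
  show TT m (glueOp S h0 h1 hlim hC hS f) = S m f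
  rw [glueOp_apply, ContinuousLinearMap.map_tsum _ (summable_glue _ (fun n => h0 n f)
    (fun n => h1 n f) (hlim f)), tsum_eq_single m]
  · have : cr (am m) (cr (rm m) (S m f)) = S m f := by
      ext s
      rw [cr_apply, cr_apply, rm_am]
    show ZZ (cr (am m) (cr (rm m) (S m f))) = S m f
    rw [this]
    exact ZZ_of_zero (h0 m f) (h1 m f)
  · intro n hn
    have : cr (am m) (cr (rm n) (S n f)) = 0 := by
      ext s
      rw [cr_apply, cr_apply, ContinuousMap.zero_apply]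
      rcases rm_am_ne hn s with h | h <;> rw [h]
      · exact h0 n f
      · exact h1 n f
    show ZZ (cr (am m) (cr (rm n) (S n f))) = 0
    rw [this, map_zero]

lemma cTT_zero (c : ℕ →ᵇ 𝕜) (n : ℕ) (f : C(I, 𝕜)) : (c n • TT n : C(I, 𝕜) →L[𝕜] C(I, 𝕜)) f 0 = 0 := by
  show c n * TT n f 0 = 0
  rw [TT_zero, mul_zero]

lemma cTT_one (c : ℕ →ᵇ 𝕜) (n : ℕ) (f : C(I, 𝕜)) : (c n • TT n : C(I, 𝕜) →L[𝕜] C(I, 𝕜)) f 1 = 0 := by
  show c n * TT n f 1 = 0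
  rw [TT_one, mul_zero]

lemma norm_cTT_le' (c : ℕ →ᵇ 𝕜) (n : ℕ) (f : C(I, 𝕜)) :
    ‖(c n • TT n : C(I, 𝕜) →L[𝕜] C(I, 𝕜)) f‖ ≤ ‖c‖ * ‖TT n f‖ := by
  show ‖c n • TT n f‖ ≤ _
  rw [norm_smul]
  gcongr
  exact c.norm_coe_le_norm n

lemma cTT_tendsto (c : ℕ →ᵇ 𝕜) (f : C(I, 𝕜)) :
    Tendsto (fun n => (c n • TT n : C(I, 𝕜) →L[𝕜] C(I, 𝕜)) f) atTop (𝓝 0) := by
  have h1 : Tendsto (fun n => ‖c‖ * ‖TT n f‖) atTop (𝓝 0) := by
    have := (TT_tendsto f).norm.const_mul ‖c‖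
    rwa [norm_zero, mul_zero] at this
  exact squeeze_zero_norm (norm_cTT_le' c · f) h1

lemma norm_cTT_le (c : ℕ →ᵇ 𝕜) (n : ℕ) (f : C(I, 𝕜)) :
    ‖(c n • TT n : C(I, 𝕜) →L[𝕜] C(I, 𝕜)) f‖ ≤
      ‖c‖ * ‖(ZZ : C(I, 𝕜) →L[𝕜] C(I, 𝕜))‖ * ‖f‖ := by
  refine (norm_cTT_le' c n f).trans ?_
  rw [mul_assoc]
  refine mul_le_mul_of_nonneg_left ?_ (norm_nonneg c)
  have h1 : ‖TT n f‖ ≤ ‖(TT n : C(I, 𝕜) →L[𝕜] C(I, 𝕜))‖ * ‖f‖ :=
    ContinuousLinearMap.le_opNorm _ _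
  have h2 : ‖(TT n : C(I, 𝕜) →L[𝕜] C(I, 𝕜))‖ * ‖f‖ ≤
      ‖(ZZ : C(I, 𝕜) →L[𝕜] C(I, 𝕜))‖ * ‖f‖ :=
    mul_le_mul_of_nonneg_right (norm_TT_le n) (norm_nonneg f)
  exact h1.trans h2

/-- a multiplier -/
noncomputable def Ec (c : ℕ →ᵇ 𝕜) : C(I, 𝕜) →L[𝕜] C(I, 𝕜) :=
  glueOp (fun n => c n • TT n) (cTT_zero c) (cTT_one c) (cTT_tendsto c)
    (C := ‖c‖ * ‖(ZZ : C(I, 𝕜) →L[𝕜] C(I, 𝕜))‖) (by positivity) (norm_cTT_le c)

lemma norm_Ec_le (c : ℕ →ᵇ 𝕜) : ‖Ec c‖ ≤ ‖c‖ * ‖(ZZ : C(I, 𝕜) →L[𝕜] C(I, 𝕜))‖ :=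
  norm_glueOp_le (fun n => c n • TT n) (cTT_zero c) (cTT_one c) (cTT_tendsto c)
    (C := ‖c‖ * ‖(ZZ : C(I, 𝕜) →L[𝕜] C(I, 𝕜))‖) (by positivity) (norm_cTT_le c)

lemma summable_Ec (c : ℕ →ᵇ 𝕜) (f : C(I, 𝕜)) :
    Summable fun n => cr (rm n) ((c n • TT n : C(I, 𝕜) →L[𝕜] C(I, 𝕜)) f) :=
  summable_glue _ (fun n => cTT_zero c n f) (fun n => cTT_one c n f) (cTT_tendsto c f)

/-- the multipliers -/
noncomputable def EE : (ℕ →ᵇ 𝕜) →L[𝕜] (C(I, 𝕜) →L[𝕜] C(I, 𝕜)) :=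
  LinearMap.mkContinuous (E := ℕ →ᵇ 𝕜) (F := C(I, 𝕜) →L[𝕜] C(I, 𝕜))
    { toFun := fun c => Ec (𝕜 := 𝕜) c
      map_add' := fun c d => by
        ext1 f
        show ∑' n, cr (rm n) (((c + d) n • TT n : C(I, 𝕜) →L[𝕜] C(I, 𝕜)) f) =
          ∑' n, cr (rm n) ((c n • TT n : C(I, 𝕜) →L[𝕜] C(I, 𝕜)) f) +
          ∑' n, cr (rm n) ((d n • TT n : C(I, 𝕜) →L[𝕜] C(I, 𝕜)) f)
        rw [← (summable_Ec c f).tsum_add (summable_Ec d f)]
        refine tsum_congr fun n => ?_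
        rw [← map_add]
        refine congrArg _ ?_
        show (c n + d n) • TT n f = c n • TT n f + d n • TT n f
        rw [add_smul]
      map_smul' := fun a c => by
        ext1 f
        show ∑' n, cr (rm n) (((a • c) n • TT n : C(I, 𝕜) →L[𝕜] C(I, 𝕜)) f) =
          a • ∑' n, cr (rm n) ((c n • TT n : C(I, 𝕜) →L[𝕜] C(I, 𝕜)) f)
        rw [← tsum_const_smul'' a]
        refine tsum_congr fun n => ?_
        rw [← map_smul]
        refine congrArg _ ?_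
        show (a * c n) • TT n f = a • c n • TT n f
        rw [mul_smul] }
    ‖(ZZ : C(I, 𝕜) →L[𝕜] C(I, 𝕜))‖ fun c => by
      rw [mul_comm]
      exact norm_Ec_le c

lemma TT_EE (n : ℕ) : (TT n : C(I, 𝕜) →L[𝕜] C(I, 𝕜)) * EE (ind {n}) = TT n := by
  have h : (TT n : C(I, 𝕜) →L[𝕜] C(I, 𝕜)) * Ec (ind {n}) =
      (ind {n} : ℕ →ᵇ 𝕜) n • (TT n : C(I, 𝕜) →L[𝕜] C(I, 𝕜)) := TT_glueOp _ _ _ _ _ _ n
  rw [ind_of_mem (Set.mem_singleton n), one_smul] at h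
  exact h

/-- the Bernstein operators -/
noncomputable def FF (n : ℕ) : C(I, 𝕜) →L[𝕜] C(I, 𝕜) :=
  ∑ k : Fin (n + 2), (ContinuousMap.evalCLM 𝕜 (bernstein.z k : I)).smulRight
    (bernstein (n + 1) k • ContinuousMap.const I (1 : 𝕜))

lemma FF_eq (n : ℕ) (f : C(I, 𝕜)) : FF n f = bernsteinApproximation (n + 1) f := by
  ext s
  rw [bernsteinApproximation.apply]
  unfold FF
  rw [_root_.sum_apply, ContinuousMap.sum_apply]
  refine sum_congr rfl fun k _ => ?_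
  show f (bernstein.z k) * (bernstein (n + 1) k s • (1 : 𝕜)) = _
  rw [mul_smul_comm, mul_one]

lemma FF_tendsto (f : C(I, 𝕜)) : Tendsto (fun n => FF n f) atTop (𝓝 f) := by
  simp_rw [FF_eq]
  exact (bernsteinApproximation_uniform f).comp (tendsto_add_atTop_nat 1)

lemma FF_zero (n : ℕ) (f : C(I, 𝕜)) : FF n f 0 = f 0 := by
  rw [FF_eq, bernsteinApproximation.apply_zero]

lemma FF_one (n : ℕ) (f : C(I, 𝕜)) : FF n f 1 = f 1 := by
  rw [FF_eq, bernsteinApproximation.apply_one (Nat.succ_ne_zero n)]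

lemma one_sub_FF_tendsto (f : C(I, 𝕜)) :
    Tendsto (fun n => (1 - FF n : C(I, 𝕜) →L[𝕜] C(I, 𝕜)) f) atTop (𝓝 0) := by
  have h1 : Tendsto (fun n => f - FF n f) atTop (𝓝 (f - f)) := (FF_tendsto f).const_sub f
  rw [sub_self] at h1
  exact h1

lemma exists_bound : ∃ C : ℝ, 0 ≤ C ∧ ∀ n, ‖(1 - FF n : C(I, 𝕜) →L[𝕜] C(I, 𝕜))‖ ≤ C := by
  obtain ⟨C, hC⟩ := banach_steinhaus (g := fun n => (1 - FF n : C(I, 𝕜) →L[𝕜] C(I, 𝕜))) (by
    intro f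
    obtain ⟨C, hC⟩ := (one_sub_FF_tendsto f).norm.bddAbove_range
    exact ⟨C, fun n => hC ⟨n, rfl⟩⟩)
  exact ⟨C, (norm_nonneg _).trans (hC 0), hC⟩

/-- The main theorem. -/
theorem shai_unitInterval {Y : Type*} [NormedAddCommGroup Y] [NormedSpace 𝕜 Y] [CompleteSpace Y]
    [Nontrivial Y] (Φ : (C(I, 𝕜) →L[𝕜] C(I, 𝕜)) →ₙₐ[𝕜] (Y →L[𝕜] Y))
    (hΦ : Function.Surjective Φ) : Function.Injective Φ := by
  by_contra hinj
  have hFF : ∀ n, Φ (FF n) = 0 := by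
    intro n
    unfold FF
    rw [map_sum]
    exact sum_eq_zero fun k _ => rank_one_killed hinj _ _
  obtain ⟨C, hC0, hC⟩ := exists_bound (𝕜 := 𝕜)
  have h0 : ∀ n (f : C(I, 𝕜)), (1 - FF n : C(I, 𝕜) →L[𝕜] C(I, 𝕜)) f 0 = 0 := by
    intro n f
    show f 0 - FF n f 0 = 0
    rw [FF_zero, sub_self]
  have h1 : ∀ n (f : C(I, 𝕜)), (1 - FF n : C(I, 𝕜) →L[𝕜] C(I, 𝕜)) f 1 = 0 := by
    intro n f
    show f 1 - FF n f 1 = 0
    rw [FF_one, sub_self]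
  have hb : ∀ n (f : C(I, 𝕜)), ‖(1 - FF n : C(I, 𝕜) →L[𝕜] C(I, 𝕜)) f‖ ≤ C * ‖f‖ := fun n f =>
    ((1 - FF n : C(I, 𝕜) →L[𝕜] C(I, 𝕜)).le_opNorm f).trans (by gcongr; exact hC n)
  have h2 : ∀ y : Y, y = 0 := shai_abstract hΦ EE TT norm_TT_le TT_EE
    (glueOp (fun n => 1 - FF n) h0 h1 one_sub_FF_tendsto hC0 hb) FF
    (fun n => TT_glueOp _ h0 h1 one_sub_FF_tendsto hC0 hb n) hFF
  obtain ⟨y, hy⟩ := exists_ne (0 : Y)
  exact hy (h2 y)

end Pool.Agent.H28.SH
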